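import Mathlib
import Pool.Agent.Y126.Glue
import Pool.Agent.Y126.JP.Glob
import Pool.Agent.Y126.JP.Glob2
import Pool.Agent.TH118.MT.Main

/-!
# From square-zero elements of rank one to the Mumford-Tate conjecture
-/

set_option autoImplicit false

namespace Pool.Agent.Y144.MT

open Module TensorProduct Pool.Agent.Y126.Notions
open Pool.Agent.H204R3.SP Pool.Agent.H204R3.GP Pool.Agent.W522.U Pool.Agent.TH118.WC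
open Pool.Agent.TH118.MT

noncomputable section

/-- The Mumford-Tate conjecture, if there are square-zero elements of rank one on all strongly
irreducible subspaces. -/
theorem mt_of_one (ℓ : ℕ) [Fact ℓ.Prime] {W T : Type} [AddCommGroup W] [Module ℚ W]
    [FiniteDimensional ℚ W] [AddCommGroup T] [Module ℂ T]
    (per : W →+ T) (ω₀ : W →ₗ[ℚ] W →ₗ[ℚ] ℚ) (halt : ∀ v, ω₀ v v = 0)
    (hnondeg : ∀ u, (∀ v, ω₀ v u = 0) → u = 0) (hω₀ : IsHodgeBilinear per ω₀)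
    {Γ : Type} [Group Γ] (ρ : Representation ℚ_[ℓ] Γ (ℚ_[ℓ] ⊗[ℚ] W)) (χ : Γ →* ℚ_[ℓ])
    (hω : ∀ s u v, bcb ℚ_[ℓ] ω₀ (ρ s u) (ρ s v) = χ s * bcb ℚ_[ℓ] ω₀ u v)
    (hss : FiniteIndexSemisimple ρ) (hF : FaltingsEnd per (incl ℚ_[ℓ] W) ρ)
    (hcen : CentreTheorem per (Pool.Agent.TH118.MT.extend (k := ℚ_[ℓ]) (AlgebraicClosure ℚ_[ℓ])
      (incl ℚ_[ℓ] W)) (bcr ρ (AlgebraicClosure ℚ_[ℓ])) (bcc χ (AlgebraicClosure ℚ_[ℓ])))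
    (h1 : ∀ ω : (AlgebraicClosure ℚ_[ℓ] ⊗[ℚ_[ℓ]] (ℚ_[ℓ] ⊗[ℚ] W)) →ₗ[AlgebraicClosure ℚ_[ℓ]]
        (AlgebraicClosure ℚ_[ℓ] ⊗[ℚ_[ℓ]] (ℚ_[ℓ] ⊗[ℚ] W)) →ₗ[AlgebraicClosure ℚ_[ℓ]]
        AlgebraicClosure ℚ_[ℓ],
      (∀ u, (∀ v, ω u v = 0) → u = 0) →
      (∀ g u v, ω (bcr ρ (AlgebraicClosure ℚ_[ℓ]) g u) (bcr ρ (AlgebraicClosure ℚ_[ℓ]) g v) =
        bcc χ (AlgebraicClosure ℚ_[ℓ]) g * ω u v) → HasProj (bcr ρ (AlgebraicClosure ℚ_[ℓ])) →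
      ∀ U, StronglyIrreducible (bcr ρ (AlgebraicClosure ℚ_[ℓ])) U →
      2 ≤ finrank (AlgebraicClosure ℚ_[ℓ]) U →
      ∃ e ∈ lieT (bcr ρ (AlgebraicClosure ℚ_[ℓ])) (bcc χ (AlgebraicClosure ℚ_[ℓ])), e * e = 0 ∧
        finrank (AlgebraicClosure ℚ_[ℓ]) (U.map e) = 1)
    (hlines : NoSelfDualLines (bcr ρ (AlgebraicClosure ℚ_[ℓ])) (bcc χ (AlgebraicClosure ℚ_[ℓ])))
    (htwists : NoProperTwists (bcr ρ (AlgebraicClosure ℚ_[ℓ])) (bcc χ (AlgebraicClosure ℚ_[ℓ]))) :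
    MumfordTate per (incl ℚ_[ℓ] W) ρ χ := by
  refine mumfordTate_of_ext (AlgebraicClosure ℚ_[ℓ]) ω₀ halt hnondeg hω₀ hω hss hF hcen ?_
  intro ω _ _ hl hinv hpr m φ hφ
  exact Pool.Agent.TH118.CR.nil_det ω hl hinv (h1 ω hl hinv hpr) hpr hlines htwists φ hφ

/-- The Mumford-Tate conjecture, in the strong form, if moreover all strongly irreducible subspaces
are symplectic. -/
theorem mt_strong_of_one (ℓ : ℕ) [Fact ℓ.Prime] {W T : Type} [AddCommGroup W] [Module ℚ W]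
    [FiniteDimensional ℚ W] [AddCommGroup T] [Module ℂ T]
    (per : W →+ T) (ω₀ : W →ₗ[ℚ] W →ₗ[ℚ] ℚ) (halt : ∀ v, ω₀ v v = 0)
    (hnondeg : ∀ u, (∀ v, ω₀ v u = 0) → u = 0) (hω₀ : IsHodgeBilinear per ω₀)
    {Γ : Type} [Group Γ] (ρ : Representation ℚ_[ℓ] Γ (ℚ_[ℓ] ⊗[ℚ] W)) (χ : Γ →* ℚ_[ℓ])
    (hω : ∀ s u v, bcb ℚ_[ℓ] ω₀ (ρ s u) (ρ s v) = χ s * bcb ℚ_[ℓ] ω₀ u v)
    (hss : FiniteIndexSemisimple ρ) (hF : FaltingsEnd per (incl ℚ_[ℓ] W) ρ)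
    (hsym : ∀ U, StronglyIrreducible (bcr ρ (AlgebraicClosure ℚ_[ℓ])) U →
      IsSymplectic (bcr ρ (AlgebraicClosure ℚ_[ℓ])) (bcc χ (AlgebraicClosure ℚ_[ℓ])) U)
    (h1 : ∀ ω : (AlgebraicClosure ℚ_[ℓ] ⊗[ℚ_[ℓ]] (ℚ_[ℓ] ⊗[ℚ] W)) →ₗ[AlgebraicClosure ℚ_[ℓ]]
        (AlgebraicClosure ℚ_[ℓ] ⊗[ℚ_[ℓ]] (ℚ_[ℓ] ⊗[ℚ] W)) →ₗ[AlgebraicClosure ℚ_[ℓ]]
        AlgebraicClosure ℚ_[ℓ],
      (∀ u, (∀ v, ω u v = 0) → u = 0) →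
      (∀ g u v, ω (bcr ρ (AlgebraicClosure ℚ_[ℓ]) g u) (bcr ρ (AlgebraicClosure ℚ_[ℓ]) g v) =
        bcc χ (AlgebraicClosure ℚ_[ℓ]) g * ω u v) → HasProj (bcr ρ (AlgebraicClosure ℚ_[ℓ])) →
      ∀ U, StronglyIrreducible (bcr ρ (AlgebraicClosure ℚ_[ℓ])) U →
      2 ≤ finrank (AlgebraicClosure ℚ_[ℓ]) U →
      ∃ e ∈ lieT (bcr ρ (AlgebraicClosure ℚ_[ℓ])) (bcc χ (AlgebraicClosure ℚ_[ℓ])), e * e = 0 ∧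
        finrank (AlgebraicClosure ℚ_[ℓ]) (U.map e) = 1) :
    MumfordTateStrong per (incl ℚ_[ℓ] W) ρ χ := by
  classical
  have hl1 : ∀ u, (∀ v, bcb ℚ_[ℓ] ω₀ u v = 0) → u = 0 :=
    fun u hu => bcb_nondeg_left ω₀ hnondeg (left_nondeg ω₀ halt hnondeg) u hu
  have hr1 : ∀ u, (∀ v, bcb ℚ_[ℓ] ω₀ v u = 0) → u = 0 :=
    fun u hu => bcb_nondeg_right ω₀ hnondeg (left_nondeg ω₀ halt hnondeg) u hu
  have hl2 : ∀ u, (∀ v, bcb (AlgebraicClosure ℚ_[ℓ]) (bcb ℚ_[ℓ] ω₀) u v = 0) → u = 0 :=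
    fun u hu => bcb_nondeg_left (bcb ℚ_[ℓ] ω₀) hr1 hl1 u hu
  have hinv := bcb_inv (Ω := AlgebraicClosure ℚ_[ℓ]) ρ χ (bcb ℚ_[ℓ] ω₀) hω
  have hpr : HasProj (bcr ρ (AlgebraicClosure ℚ_[ℓ])) := hasProj_bcr ρ _ hss
  have hdual : ∀ U, StronglyIrreducible (bcr ρ (AlgebraicClosure ℚ_[ℓ])) U →
      AreDual (bcr ρ (AlgebraicClosure ℚ_[ℓ])) (bcc χ (AlgebraicClosure ℚ_[ℓ])) U U := by
    intro U hU
    obtain ⟨Δ, hΔ, B, hB, -, h⟩ := hsym U hU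
    exact ⟨Δ, hΔ, B, hB, h⟩
  refine mumfordTate_of per (incl ℚ_[ℓ] W) ρ χ (bcb ℚ_[ℓ] ω₀) hl1 hω ω₀ hω₀ (fun x y => ?_) hF
    fun m φ hφ => ?_
  · rw [incl_apply, incl_apply, bcb_one, eq_ratCast]
  · refine tate_descent_any (Ω := AlgebraicClosure ℚ_[ℓ])
      (Module.finBasis ℚ_[ℓ] _) ρ χ (fun φ' hφ' => ?_) φ hφ
    refine Pool.Agent.Y126.Toric.pt_of_noWeil ?_
      (Pool.Agent.TH118.CR.nil_det _ hl2 hinv (h1 _ hl2 hinv hpr) hpr ?_ ?_ φ' hφ')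
    · intro Q _ hQ L hL
      obtain ⟨q⟩ := hQ
      exact hL.2.1 q q (hdual _ (hL.1 q))
    · intro U hU h1 _
      exact Pool.Agent.Y126.JP.not_line h1 (hsym U hU)
    · intro U U' hU _ _ h
      exact absurd (hdual U hU) h

end

end Pool.Agent.Y144.MT
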