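import Mathlib
import Pool.Agent.Y144.MT.Core

/-!
# Conditions on places of bad and of good reduction

`X` is the rational Tate module of an abelian variety over an algebraically closed field `K`
containing `ℚ_ℓ`, with the action `R` of the Galois group `Γ` and the cyclotomic character `χ`.
-/

set_option autoImplicit false

namespace Pool.Agent.Y144.MT

open Module TensorProduct Pool.Agent.Y126.Notions
open Pool.Agent.H204R3.SP Pool.Agent.H204R3.GP Pool.Agent.W522.U

noncomputable section

section defs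

variable {K X Γ : Type} [Field K] [AddCommGroup X] [Module K X] [Group Γ]

/-- The number `d` is a *defect* of `γ` on `U`: the rank of `γ - 1` on `U`, or the algebraic
multiplicity on `U` of a nonzero eigenvalue of `(γ - 1) (γ' - 1)`, for an element `γ'` of the group
with `(γ' - 1) ^ 2 = 0`. -/
def IsDefect (R : Representation K Γ X) (U : Submodule K X) (γ : Γ) (d : ℕ) : Prop :=
  d = finrank K (U.map (R γ - 1)) ∨
    ∃ γ' : Γ, (R γ' - 1) * (R γ' - 1) = 0 ∧ ∃ a : K, a ≠ 0 ∧
      d = finrank K (Module.End.maxGenEigenspace ((R γ - 1) * (R γ' - 1)) a ⊓ U : Submodule K X)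

/-- The algebraic multiplicity of the eigenvalue `a` of `F` on the subspace `U`. -/
def mult (R : Representation K Γ X) (F : Γ) (U : Submodule K X) (a : K) : ℕ :=
  finrank K (Module.End.maxGenEigenspace (R F) a ⊓ U : Submodule K X)

/-- `F` is a diagonalizable element that maps `γ - 1` to `χ F` times itself under conjugation, and
the eigenvalues of `F` are: `1`; elements `a` of weight `w a = 1 / 2`; and `χ F`, with eigenvectors
in the image of `γ - 1`.  Here the weight `w` is a homomorphism from the multiplicative group of `K`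
to the rational numbers with `w (χ F) = 1`. -/
def IsFrobenius (R : Representation K Γ X) (χ : Γ →* K) (w : Additive Kˣ →+ ℚ) (γ F : Γ) : Prop :=
  R F * (R γ - 1) = χ F • ((R γ - 1) * R F) ∧
    ∃ (n : ℕ) (b : Basis (Fin n) K X) (a : Fin n → Kˣ) (c : Kˣ),
      (c : K) = χ F ∧ w (Additive.ofMul c) = 1 ∧ (∀ i, R F (b i) = (a i : K) • b i) ∧
      ∀ i, a i = 1 ∨ w (Additive.ofMul (a i)) = 1 / 2 ∨
        (a i = c ∧ b i ∈ LinearMap.range (R γ - 1))

/-- There is an element `γ` of the group with `(γ - 1) ^ 2 = 0` (in the inertia group of a place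
of bad semistable reduction) such that

* the defects of `γ` on `U` have no common prime factor, or
* `U` is symplectic and a defect is two, or
* `U` is symplectic, the weak Hodge elements generate and a defect is odd, or
* `U` is symplectic, the weak Hodge elements generate, `γ` is not trivial on `U`, and for some `F`
  as above (a Frobenius element at this place) that maps `U` to `U`, some eigenvalue of `F` on `U`
  has odd multiplicity, and either four times the greatest common divisor of the defects of `γ` on `U`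
  is smaller than the dimension of `U`, or some eigenvalue of weight `1 / 2` of `F` on `U` has
  multiplicity smaller than an eighth of it. -/
def HasBadPlace (R : Representation K Γ X) (χ : Γ →* K) (U : Submodule K X) : Prop :=
  ∃ γ : Γ, (R γ - 1) * (R γ - 1) = 0 ∧
    ((∀ p : ℕ, p.Prime → ∃ d, IsDefect R U γ d ∧ ¬ p ∣ d) ∨
      (IsSymplectic R χ U ∧ ((∃ d, IsDefect R U γ d ∧ (d = 2 ∨ (Odd d ∧ WeakHodgeGenerate R χ))) ∨
        (WeakHodgeGenerate R χ ∧ U.map (R γ - 1) ≠ ⊥ ∧ ∃ (w : Additive Kˣ →+ ℚ) (F : Γ),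
          IsFrobenius R χ w γ F ∧ (∀ u ∈ U, R F u ∈ U) ∧ (∃ a : K, Odd (mult R F U a)) ∧
          ((∀ d, (∀ δ, IsDefect R U γ δ → d ∣ δ) → 4 * d < finrank K U) ∨
            ∃ a : Kˣ, w (Additive.ofMul a) = 1 / 2 ∧ 0 < mult R F U a ∧
              8 * mult R F U a < finrank K U)))))

/-- The slope operator of a diagonalizable element `F` of the group with eigenvalues of slope
`0` and `1` (a Frobenius element at a place of good ordinary reduction): `w` is a homomorphism from
the multiplicative group of `K` to the rational numbers with `w (χ F) = 1`, and `x` is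
multiplication by `w a - 1 / 2` on the eigenspace of the eigenvalue `a`, where `w a` is `0` or `1`. -/
def IsOrdinarySlopeOperator (R : Representation K Γ X) (χ : Γ →* K) (x : Module.End K X) : Prop :=
  ∃ (F : Γ) (n : ℕ) (b : Basis (Fin n) K X) (a : Fin n → Kˣ) (c : Kˣ) (w : Additive Kˣ →+ ℚ),
    (∀ i, R F (b i) = (a i : K) • b i) ∧ (c : K) = χ F ∧ w (Additive.ofMul c) = 1 ∧
    ∀ i, (w (Additive.ofMul (a i)) = 1 ∧ x (b i) = (1 / 2 : K) • b i) ∨
      (w (Additive.ofMul (a i)) = 0 ∧ x (b i) = -(1 / 2 : K) • b i)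

/-- The operator `x y + y x` has on `U` an eigenvalue different from `1 / 2` and `- 1 / 2` of
algebraic multiplicity `2 d`. -/
def HasHalfMultiplicity (x y : Module.End K X) (U : Submodule K X) (d : ℕ) : Prop :=
  ∃ c : K, c ≠ 1 / 2 ∧ c ≠ -(1 / 2) ∧
    2 * d = finrank K (Module.End.maxGenEigenspace (x * y + y * x) c ⊓ U : Submodule K X)

/-- The multiplicity of `c` in the family `a`. -/
def times {n : ℕ} (a : Fin n → Kˣ) (c : Kˣ) : ℕ := Nat.card {i // a i = c}

/-- The number of times that `x` occurs as a ratio of members of the family `a`: the sum, over all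
`c`, of the minimum of the multiplicities of `c` and of `c x`. -/
def coincidences {n : ℕ} (a : Fin n → Kˣ) (x : Kˣ) : ℕ :=
  ∑ᶠ c : Kˣ, min (times a c) (times a (c * x))

/-- For every `k`, the subgroup `H` is generated by the ratios `a j / a k` that it contains. -/
def IsSaturated {n : ℕ} (a : Fin n → Kˣ) (H : Subgroup Kˣ) : Prop :=
  ∀ k, Subgroup.closure {x | x ∈ H ∧ ∃ j, x = a j / a k} = H

/-- Let `a i` be the eigenvalues of `F` on `U`, with an index `i₀`, and let `W` be a subgroup of the
multiplicative group of `K`.  Each ratio `a j / a i₀` that is not in `W` occurs at most `r` times as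
a ratio of eigenvalues, where `4 r < dim U`, and either `dim U` is not divisible by `4` and some ratio
`a j / a i₀` is not in `W`, or `r ^ 2 < dim U` and for every saturated subgroup `H` of `W` some
coset of `H` contains an odd number of eigenvalues. -/
def HasFewRatios (R : Representation K Γ X) (U : Submodule K X) (F : Γ) (W : Subgroup Kˣ) : Prop :=
  ∃ (n : ℕ) (b : Basis (Fin n) K U) (a : Fin n → Kˣ) (i₀ : Fin n) (r : ℕ),
    (∀ i, R F (b i : X) = (a i : K) • (b i : X)) ∧
    (∀ j, a j / a i₀ ∉ W → coincidences a (a j / a i₀) ≤ r) ∧ 4 * r < n ∧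
    ((¬4 ∣ n ∧ ∃ j, a j / a i₀ ∉ W) ∨
      (r ^ 2 < n ∧ ∀ H ≤ W, IsSaturated a H → ∃ t : Kˣ, Odd (Nat.card {i // a i / t ∈ H})))

/-- Either there are two ordinary slope operators `x` and `y` such that the halves of the
multiplicities on `U` of the eigenvalues of `x y + y x` different from `1 / 2` and `- 1 / 2` have no
common prime factor, or `U` is symplectic and one of them is two, or prime to the dimension of `U`,
or odd and the weak Hodge elements generate; or `U` is symplectic, the weak Hodge elements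
generate and some `F` (a Frobenius element at a place of good reduction) has few ratios of
eigenvalues on `U`. -/
def HasGoodPlaces (R : Representation K Γ X) (χ : Γ →* K) (U : Submodule K X) : Prop :=
  (∃ x y : Module.End K X, IsOrdinarySlopeOperator R χ x ∧ IsOrdinarySlopeOperator R χ y ∧
    ((∀ p : ℕ, p.Prime → ∃ d, HasHalfMultiplicity x y U d ∧ ¬ p ∣ d) ∨
      (IsSymplectic R χ U ∧ ∃ d, HasHalfMultiplicity x y U d ∧
        (d = 2 ∨ Nat.Coprime d (finrank K U) ∨ (Odd d ∧ WeakHodgeGenerate R χ))))) ∨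
  (IsSymplectic R χ U ∧ WeakHodgeGenerate R χ ∧
    ∃ (F : Γ) (W : Subgroup Kˣ), HasFewRatios R U F W)

end defs

section lemmas

variable {K : Type} [Field K] [CharZero K] {X : Type} [AddCommGroup X] [Module K X]
  [FiniteDimensional K X] {Γ : Type} [Group Γ] {R : Representation K Γ X} {χ : Γ →* K}

theorem slope_spec {x : Module.End K X} (hx : IsOrdinarySlopeOperator R χ x) :
    x ∈ lieT R χ ∧ x * x = (1 / 4 : K) • 1 := by
  obtain ⟨F, n, b, a, c, w, hF, hc, hw, h⟩ := hx
  refine ⟨Pool.Agent.Y126.Glue.slope_mem F b a c w hF hc hw fun i => ?_, ?_⟩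
  · rcases h i with ⟨h1, h2⟩ | ⟨h1, h2⟩
    · rw [h1, h2]
      congr 1
      push_cast
      norm_num
    · rw [h1, h2]
      congr 1
      push_cast
      norm_num
  · refine b.ext fun i => ?_
    rw [Module.End.mul_apply, LinearMap.smul_apply, Module.End.one_apply]
    rcases h i with ⟨-, h2⟩ | ⟨-, h2⟩
    · rw [h2, map_smul, h2, smul_smul]
      norm_num
    · rw [h2, map_smul, h2, smul_smul]
      norm_num

variable [IsAlgClosed K] (ω : X →ₗ[K] X →ₗ[K] K) (hnd : ∀ u, (∀ v, ω u v = 0) → u = 0)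
  (hωR : ∀ g u v, ω (R g u) (R g v) = χ g * ω u v) (hss : HasProj R) {U : Submodule K X}
  (hU : SI R U)

include hnd hωR hss hU in
theorem one_of_bad (h : HasBadPlace R χ U) :
    ∃ e ∈ lieT R χ, e * e = 0 ∧ finrank K (U.map e) = 1 := by
  have hP' : WeakHodgeGenerate R χ → Pool.Agent.W528.Odd.WeakHodgeGenerate R χ :=
    fun h P hP => h P fun x hx => hP x hx.2 hx.1
  obtain ⟨γ, hγ, hd | ⟨halt, ⟨d, hd, hd2⟩ | ⟨hP, hN0, w, F, ⟨hFN, n, b, a, c, hc, hwc, hF, ha⟩, hFU,
    hodd, hsmall⟩⟩⟩ := h
  · exact Pool.Agent.Y126.Toric.one_of_gcd ω hnd hωR hss hU hγ hd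
  · exact Pool.Agent.Y126.Toric.one_of_alt ω hnd hωR hss hU halt hγ hd
      (hd2.imp_right fun h => ⟨h.1, hP' h.2⟩)
  · refine Pool.Agent.Y126.JP.one_of_frob ω hnd hωR hss hU halt (hP' hP) hγ hN0 hFN hFU hc hwc hF ha
      hodd ?_
    rcases hsmall with h | ⟨t, ht, h1, h2⟩
    · exact Or.inl h
    · exact Or.inr ⟨t, ht, fun h3 => h1.ne' (Submodule.finrank_eq_zero.2 h3), h2⟩

include hnd hωR hss hU in
theorem one_of_good (h : HasGoodPlaces R χ U) :
    ∃ e ∈ lieT R χ, e * e = 0 ∧ finrank K (U.map e) = 1 := by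
  have hP' : WeakHodgeGenerate R χ → Pool.Agent.W528.Odd.WeakHodgeGenerate R χ :=
    fun h P hP => h P fun x hx => hP x hx.2 hx.1
  have hsq : ∀ c : K, c ≠ 1 / 2 → c ≠ -(1 / 2) → c * c ≠ 1 / 4 := by
    intro c h1 h2 h3
    have h4 : (c - 1 / 2) * (c + 1 / 2) = 0 := by linear_combination h3
    rcases mul_eq_zero.1 h4 with h5 | h5
    · exact h1 (sub_eq_zero.1 h5)
    · exact h2 (eq_neg_of_add_eq_zero_left h5)
  rcases h with ⟨x, y, hx, hy, h | ⟨hs, d, ⟨c, hc1, hc2, hd⟩, h⟩⟩ |
    ⟨hs, hP, F, W, n, b, a, i₀, r, hF, hr, hr4, hodd⟩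
  · obtain ⟨hx1, hx2⟩ := slope_spec hx
    obtain ⟨hy1, hy2⟩ := slope_spec hy
    refine Pool.Agent.Y126.Toric.one_of_pair_gcd ω hnd hωR hss hU hx1 hy1 hx2 hy2 ?_
    intro p hp
    obtain ⟨d, ⟨c, hc1, hc2, hd⟩, hpd⟩ := h p hp
    exact ⟨c, d, hsq c hc1 hc2, hd, hpd⟩
  · obtain ⟨hx1, hx2⟩ := slope_spec hx
    obtain ⟨hy1, hy2⟩ := slope_spec hy
    have h2 : 2 ≤ finrank K U := Pool.Agent.Y126.Toric.altDual_two_le hs
    refine Pool.Agent.Y126.Toric.one_of_pair_alt ω hnd hωR hss hU hx1 hy1 hx2 hy2 hs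
      (hsq c hc1 hc2) hd ?_ ?_
    · rintro rfl
      rcases h with h | h | ⟨h, -⟩
      · omega
      · rw [Nat.coprime_zero_left] at h
        omega
      · exact absurd h (by decide)
    · rcases h with h | h | ⟨h, hP⟩
      · exact Or.inl h
      · exact Or.inr (Or.inr h)
      · exact Or.inr (Or.inl ⟨h, hP' hP⟩)
  · refine Pool.Agent.Y126.JP.one_of_grading ω hnd hωR hss hU hs (hP' hP) hF (W := W) (i₀ := i₀)
      (r := r) hr hr4 ?_
    rcases hodd with h | ⟨hrr, hodd⟩
    · exact Or.inl h
    · exact Or.inr ⟨by rw [← sq]; exact hrr, hodd⟩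

end lemmas

end

end Pool.Agent.Y144.MT
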