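import Mathlib
import Pool.Agent.Y144.MT.Core

/-!
# From tensors to cohomology classes on the powers
-/

set_option autoImplicit false

namespace Pool.Agent.Y144.MT

open Module TensorProduct Pool.Agent.Y126.Notions
open Pool.Agent.H204R3.GP Pool.Agent.TH118.MT

noncomputable section

variable {k : Type} [Field k] [CharZero k] {Γ : Type} [Group Γ]
  {W T : Type} [AddCommGroup W] [Module ℚ W] [AddCommGroup T] [Module ℂ T]

/-- A class in `H^{2m}(A^n, ℚ)(m)`, that is an alternating form `ψ` in `2 m` variables on `W ^ n`, where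
`W = H_1(A, ℚ)`, is a Hodge class: it extends to a real multilinear form on `T ^ n` (`T` is the
tangent space of `A` at the origin) which is invariant under the multiplication of all variables
by complex numbers of absolute value one. -/
def IsHodgeClass (per : W →+ T) {n m : ℕ} (ψ : (Fin n → W) [⋀^Fin m × Fin 2]→ₗ[ℚ] ℚ) : Prop :=
  ∃ Ψ : MultilinearMap ℝ (fun _ : Fin m × Fin 2 => Fin n → T) ℝ,
    (∀ v : Fin m × Fin 2 → Fin n → W, Ψ (fun l i => per (v l i)) = ψ v) ∧
    ∀ z : ℂ, ‖z‖ = 1 → ∀ u : Fin m × Fin 2 → Fin n → T, Ψ (fun l => z • u l) = Ψ u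

/-- The `k`-span of the Hodge classes in `H^{2m}(A^n, k)(m)`. -/
def hodgeClasses (k : Type) [Field k] [CharZero k] (per : W →+ T) (n m : ℕ) :
    Submodule k ((Fin n → k ⊗[ℚ] W) [⋀^Fin m × Fin 2]→ₗ[k] k) :=
  Submodule.span k {f | ∃ ψ : (Fin n → W) [⋀^Fin m × Fin 2]→ₗ[ℚ] ℚ, IsHodgeClass per ψ ∧
    ∀ v : Fin m × Fin 2 → Fin n → W, f (fun l i => (1 : k) ⊗ₜ[ℚ] v l i) = ((ψ v : ℚ) : k)}

/-- The `k`-span of the Tate classes in `H^{2m}(A^n, k)(m)`. -/
def tateClasses (ρ : Representation k Γ (k ⊗[ℚ] W)) (χ : Γ →* k) (n m : ℕ) :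
    Submodule k ((Fin n → k ⊗[ℚ] W) [⋀^Fin m × Fin 2]→ₗ[k] k) :=
  Submodule.span k {f | IsTateClass ρ χ f}

/-- If all Tate tensors are combinations of Hodge tensors then all Tate classes on all powers are
combinations of Hodge classes. -/
theorem tate_le_hodge {ρ : Representation k Γ (k ⊗[ℚ] W)} {χ : Γ →* k} {per : W →+ T}
    (h : MumfordTate per (incl k W) ρ χ) (n m : ℕ) :
    tateClasses ρ χ n m ≤ hodgeClasses k per n m := by
  classical
  refine Submodule.span_le.2 ?_
  intro f hf
  obtain ⟨Δ, hΔ, hf⟩ := hf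
  let N := Fin m × Fin 2
  -- the components
  let fc : (N → Fin n) → MultilinearMap k (fun _ : N => k ⊗[ℚ] W) k := fun c =>
    f.toMultilinearMap.compLinearMap (fun l => LinearMap.single k (fun _ : Fin n => k ⊗[ℚ] W) (c l))
  have hfc : ∀ c, fc c ∈ HodgeSpan (k := k) per (incl k W) m := by
    intro c
    refine h m (fc c) ⟨Δ, hΔ, fun s hs v => ?_⟩
    have h1 := hf s hs (fun l => Pi.single (c l) (v l))
    change f (fun l => Pi.single (c l) (ρ s (v l))) = χ s ^ m * f (fun l => Pi.single (c l) (v l))
    rw [← h1]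
    congr 1
    funext l i
    by_cases h : i = c l
    · subst h
      rw [Pi.single_eq_same, Pi.single_eq_same]
    · rw [Pi.single_eq_of_ne h, Pi.single_eq_of_ne h, map_zero]
  -- the pullback of a tensor to an alternating form on the power
  let pb : (N → Fin n) → MultilinearMap k (fun _ : N => k ⊗[ℚ] W) k →ₗ[k]
      ((Fin n → k ⊗[ℚ] W) [⋀^N]→ₗ[k] k) := fun c =>
    { toFun := fun φ => MultilinearMap.alternatization
        (φ.compLinearMap (fun l => LinearMap.proj (R := k) (φ := fun _ : Fin n => k ⊗[ℚ] W) (c l)))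
      map_add' := fun φ φ' => by
        rw [← map_add]
        rfl
      map_smul' := fun a φ => by
        ext v
        simp only [MultilinearMap.alternatization_apply, RingHom.id_apply,
          AlternatingMap.smul_apply, Finset.smul_sum]
        refine Finset.sum_congr rfl fun σ _ => ?_
        rw [MultilinearMap.domDomCongr_apply, MultilinearMap.domDomCongr_apply,
          smul_comm a (Equiv.Perm.sign σ)]
        rfl }
  have hpb : ∀ c φ v, pb c φ v = ∑ σ : Equiv.Perm N, Equiv.Perm.sign σ •
      φ (fun l => v (σ l) (c l)) := by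
    intro c φ v
    change MultilinearMap.alternatization _ v = _
    rw [MultilinearMap.alternatization_apply]
    rfl
  have hmem : ∀ c, pb c (fc c) ∈ hodgeClasses k per n m := by
    intro c
    have h1 : (HodgeSpan (k := k) per (incl k W) m).map (pb c) ≤ hodgeClasses k per n m := by
      rw [HodgeSpan, Submodule.map_span]
      refine Submodule.span_mono ?_
      rintro _ ⟨φ, ⟨ψ, ⟨Ψ, hΨ, hΨ'⟩, hφ⟩, rfl⟩
      refine ⟨MultilinearMap.alternatization (ψ.compLinearMap
        (fun l => LinearMap.proj (R := ℚ) (φ := fun _ : Fin n => W) (c l))), ?_, fun v => ?_⟩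
      · refine ⟨∑ σ : Equiv.Perm N, Equiv.Perm.sign σ • (MultilinearMap.domDomCongr σ
          (Ψ.compLinearMap (fun l => LinearMap.proj (R := ℝ) (φ := fun _ : Fin n => T) (c l)))),
          fun v => ?_, fun z hz u => ?_⟩
        · rw [sum_apply, MultilinearMap.alternatization_apply]
          push_cast
          refine Finset.sum_congr rfl fun σ _ => ?_
          have h2 : Ψ (fun l => per (v (σ l) (c l))) = ψ (fun l => v (σ l) (c l)) :=
            hΨ (fun l => v (σ l) (c l))
          have h4 : (MultilinearMap.domDomCongr σ (ψ.compLinearMap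
              (fun l => LinearMap.proj (R := ℚ) (φ := fun _ : Fin n => W) (c l)))) v =
              ψ (fun l => v (σ l) (c l)) := rfl
          change Equiv.Perm.sign σ • Ψ (fun l => per (v (σ l) (c l))) = _
          rw [h2, h4]
          rcases Int.units_eq_one_or (Equiv.Perm.sign σ) with h5 | h5
          · rw [h5, one_smul, one_smul]
          · rw [h5]
            simp
        · rw [sum_apply, sum_apply]
          refine Finset.sum_congr rfl fun σ _ => ?_
          change Equiv.Perm.sign σ • Ψ (fun l => z • u (σ l) (c l)) =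
            Equiv.Perm.sign σ • Ψ (fun l => u (σ l) (c l))
          rw [hΨ' z hz (fun l => u (σ l) (c l))]
      · rw [hpb, MultilinearMap.alternatization_apply]
        push_cast
        refine Finset.sum_congr rfl fun σ _ => ?_
        have h2 : φ (fun l => (1 : k) ⊗ₜ[ℚ] v (σ l) (c l)) = ((ψ (fun l => v (σ l) (c l)) : ℚ) : k) :=
          hφ (fun l => v (σ l) (c l))
        have h4 : (MultilinearMap.domDomCongr σ (ψ.compLinearMap
            (fun l => LinearMap.proj (R := ℚ) (φ := fun _ : Fin n => W) (c l)))) v =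
            ψ (fun l => v (σ l) (c l)) := rfl
        rw [h2, h4]
        rcases Int.units_eq_one_or (Equiv.Perm.sign σ) with h5 | h5
        · rw [h5, one_smul, one_smul]
        · rw [h5]
          simp
    exact h1 (Submodule.mem_map_of_mem (hfc c))
  -- the form is the sum of its components
  have hsum : ∀ v : N → Fin n → k ⊗[ℚ] W, f v = ∑ c : N → Fin n, fc c (fun l => v l (c l)) := by
    intro v
    have h1 : v = fun l => ∑ i : Fin n, Pi.single i (v l i) := by
      funext l
      exact (Finset.univ_sum_single (v l)).symm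
    conv_lhs => rw [h1]
    have h2 := f.toMultilinearMap.map_sum (fun (l : N) (i : Fin n) =>
      (Pi.single i (v l i) : Fin n → k ⊗[ℚ] W))
    exact h2
  have htot : ((Nat.factorial (Fintype.card N) : ℕ) : k) • f = ∑ c : N → Fin n, pb c (fc c) := by
    ext v
    let ev : ((Fin n → k ⊗[ℚ] W) [⋀^N]→ₗ[k] k) →+ k :=
      { toFun := fun g => g v
        map_zero' := rfl
        map_add' := fun _ _ => rfl }
    have hev : (∑ c : N → Fin n, pb c (fc c)) v = ∑ c : N → Fin n, pb c (fc c) v :=
      map_sum ev _ _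
    rw [hev, AlternatingMap.smul_apply]
    simp only [hpb]
    rw [Finset.sum_comm]
    have h1 : ∀ σ : Equiv.Perm N, ∑ c : N → Fin n, Equiv.Perm.sign σ •
        fc c (fun l => v (σ l) (c l)) = f v := by
      intro σ
      rw [← Finset.smul_sum, ← hsum (fun l => v (σ l))]
      have h2 := f.map_perm v σ
      change Equiv.Perm.sign σ • f (v ∘ σ) = f v
      rw [h2, smul_smul]
      have : Equiv.Perm.sign σ * Equiv.Perm.sign σ = 1 := Int.units_mul_self _
      rw [this, one_smul]
    rw [Finset.sum_congr rfl fun σ _ => h1 σ, Finset.sum_const, Finset.card_univ,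
      Fintype.card_perm, nsmul_eq_mul, smul_eq_mul]
  have hne : ((Nat.factorial (Fintype.card N) : ℕ) : k) ≠ 0 :=
    Nat.cast_ne_zero.2 (Nat.factorial_ne_zero _)
  have hf' : f = ((Nat.factorial (Fintype.card N) : ℕ) : k)⁻¹ • ∑ c : N → Fin n, pb c (fc c) := by
    rw [← htot, smul_smul, inv_mul_cancel₀ hne, one_smul]
  change f ∈ hodgeClasses k per n m
  rw [hf']
  exact Submodule.smul_mem _ _ (Submodule.sum_mem _ fun c _ => hmem c)

end

end Pool.Agent.Y144.MT
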